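import Pool.Agent.W_448t6_h16.TC

/-!
# T6 at the first bad level (MP_448cb3_co): rotations

Final form of row 474.
-/

namespace Pool.Agent.GaussPoset.Win

set_option linter.unusedSectionVars false

open Finset

universe u

variable {P : Type u} [Fintype P] [PartialOrder P] [DecidableEq P] {r j : ℕ} {t : P} {m : ℕ}
  {x : ℕ → P}

/-- a rotated row: new pair `{x 0, x m}`, lost pair `{x 0, x 1}` -/
structure RotR (P : Type u) [Fintype P] [PartialOrder P] [DecidableEq P] (j : ℕ) (t : P) (m : ℕ)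
    (x : ℕ → P) : Prop where
  row : Rw P j t m x
  hm : 3 ≤ m
  new : Df j {x 0, x m} = 1
  lost : Df j {x 0, x 1} = -1
  rest : ∀ k, 1 ≤ k → k < m → Df j {x k, x (k + 1)} = 0

/-- the component of `t` is natural at level `j` -/
def NatT (j : ℕ) (t : P) : Prop :=
  ∀ u w : P, lev u = j → lev w = j → u ≤ t → w ≤ t → u ≠ w → ucv u w = dcv u w

lemma natT_iff (H : Gr P r) : NatT j t ↔
    ∀ u ∈ St.wt0 j t, ∀ w ∈ St.wt0 j t, u ≠ w → Df j {u, w} = 0 := by
  constructor
  · intro h u hu w hw huw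
    rw [St.mem_wt0] at hu hw
    rw [Df_pair H hu.1 huw, h u w hu.1 hw.1 hu.2 hw.2 huw]
    ring
  · intro h u w hu hw hut hwt huw
    have h1 := h u (St.mem_wt0.2 ⟨hu, hut⟩) w (St.mem_wt0.2 ⟨hw, hwt⟩) huw
    rw [Df_pair H hu huw] at h1
    omega

lemma Rw.wt_eq (S : Rw P j t m x) : St.wt0 j t = SV m x := by
  ext v
  unfold SV
  rw [St.mem_wt0, mem_image]
  constructor
  · rintro ⟨h1, h2⟩
    obtain ⟨a, ha, hx⟩ := S.surj v h1 h2
    exact ⟨a, mem_range.2 (by omega), hx⟩
  · rintro ⟨a, ha, rfl⟩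
    rw [mem_range] at ha
    exact ⟨S.lev_x a (by omega), S.le_t a (by omega)⟩

/-- the defects of a rotated row -/
lemma RotR.zero (R : RotR P j t m x) (H : Gr P r) {a b : ℕ} (hab : a < b) (hb : b ≤ m)
    (h0 : a = 0 → b ≠ 1 ∧ b ≠ m) : Df j {x a, x b} = 0 := by
  have hm := R.hm
  by_cases h1 : b = a + 1
  · subst h1
    exact R.rest a (by omega) (by omega)
  · exact R.row.onStrip H a b (by omega) hb (by omega)

lemma RotR.starry (R : RotR P j t m x) (H : Gr P r) :
    St.Starry (Df j) (SV m x) {(x 0, x m, x 1)} := by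
  have hm := R.hm
  have S := R.row
  have key : ∀ a b, a < b → b ≤ m →
      ¬ (x a ∈ St.sp (x 0, x m, x 1) ∧ x b ∈ St.sp (x 0, x m, x 1)) → Df j {x a, x b} = 0 := by
    intro a b hab hb hn
    refine R.zero H hab hb ?_
    rintro rfl
    refine ⟨?_, ?_⟩
    · rintro rfl
      exact hn ⟨St.mem_sp.2 (Or.inl rfl), St.mem_sp.2 (Or.inr (Or.inr rfl))⟩
    · rintro rfl
      exact hn ⟨St.mem_sp.2 (Or.inl rfl), St.mem_sp.2 (Or.inr (Or.inl rfl))⟩
  refine ⟨?_, ?_, ?_, ?_⟩
  · intro d hd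
    rw [mem_singleton] at hd
    subst hd
    refine ⟨S.ne (by omega) le_rfl, S.ne (by omega) (by omega), (S.ne (by omega) le_rfl).symm,
      R.new, R.lost, ?_⟩
    show Df j {x m, x 1} = 0
    rw [pair_comm]
    exact R.zero H (by omega) le_rfl (by omega)
  · intro d hd
    rw [mem_singleton] at hd
    subst hd
    intro v hv
    rw [St.mem_sp] at hv
    rcases hv with rfl | rfl | rfl
    · exact mem_SV (Nat.zero_le m)
    · exact mem_SV le_rfl
    · exact mem_SV (show 1 ≤ m by omega)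
  · intro d hd d' hd' hne
    rw [mem_singleton] at hd hd'
    exact absurd (hd.trans hd'.symm) hne
  · intro u hu w hw huw hn
    have hn' := hn _ (mem_singleton_self _)
    unfold SV at hu hw
    obtain ⟨a, ha, rfl⟩ := mem_image.1 hu
    obtain ⟨b, hb, rfl⟩ := mem_image.1 hw
    rw [mem_range] at ha hb
    rcases Nat.lt_trichotomy a b with h1 | h1 | h1
    · exact key a b h1 (by omega) hn'
    · rw [h1] at huw
      exact absurd rfl huw
    · rw [pair_comm]
      exact key b a h1 (by omega) (fun h2 => hn' ⟨h2.2, h2.1⟩)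

/-- the contribution of a rotated row -/
theorem RotR.ct (R : RotR P j t m x) (H : Gr P r) (h1 : St.mp (Df j) (SV m x) = 1)
    {th : Finset P → ℤ} (hth : OnStrip m x th) :
    St.ct (Df j) th (SV m x) = 2 + 2 * th {x (m - 1), x m} - 2 * th {x 1, x 2} := by
  have hm := R.hm
  have S := R.row
  have hS := R.starry H
  have ht := St.tight_of_star hS
  obtain ⟨n, hn⟩ : ∃ n, m = n + 3 := ⟨m - 3, by omega⟩
  have hon := S.onStrip H
  have d0 : St.dg (Df j) (SV m x) (x 0) = 0 := by
    rw [S.row_first (by omega) hon, R.lost, R.new]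
    norm_num
  have dm : St.dg (Df j) (SV m x) (x m) = 1 := by
    have h2 := R.rest (m - 1) (by omega) (by omega)
    rw [show m - 1 + 1 = m by omega] at h2
    rw [S.row_last (by omega) hon, h2, R.new]
    norm_num
  have d1 : St.dg (Df j) (SV m x) (x 1) = -1 := by
    have h2 := S.row_mid hon (a := 0) (by omega)
    have h3 := R.rest 1 le_rfl (by omega)
    have h4 := R.lost
    rw [show (0 : ℕ) + 1 = 1 from rfl, show (0 : ℕ) + 2 = 2 from rfl] at h2
    rw [show (1 : ℕ) + 1 = 2 from rfl] at h3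
    rw [h2, h3, h4]
    norm_num
  have dk : ∀ a, 2 ≤ a → a < m → St.dg (Df j) (SV m x) (x a) = 0 := by
    intro a ha ha2
    have h2 := S.row_mid hon (a := a - 1) (by omega)
    have h3 := R.rest (a - 1) (by omega) (by omega)
    have h4 := R.rest a (by omega) (by omega)
    rw [show a - 1 + 2 = a + 1 by omega] at h2
    rw [show a - 1 + 1 = a by omega] at h2 h3
    rw [h2, h3, h4]
    norm_num
  set g : Finset P → ℤ := fun e => th e * (St.Fm (Df j) (SV m x) e - 1) with hg
  have hong : OnStrip m x g := by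
    intro a b h2 h3 h4
    show th {x a, x b} * _ = 0
    rw [hth a b h2 h3 h4, zero_mul]
  have hF : ∀ a b, a < b → b ≤ m → St.Fm (Df j) (SV m x) {x a, x b} =
      1 + St.dg (Df j) (SV m x) (x a) + St.dg (Df j) (SV m x) (x b) - Df j {x a, x b} :=
    fun a b hab hb => ht.F_two h1 (mem_SV (by omega)) (mem_SV hb) (S.ne hab hb)
  obtain ⟨c, hc⟩ : ∃ c : ℕ → ℤ, ∀ k, c k = g {x k, x (k + 1)} := ⟨_, fun _ => rfl⟩
  have c0 : c 0 = 0 := by
    rw [hc]
    show th {x 0, x (0 + 1)} * (St.Fm (Df j) (SV m x) {x 0, x (0 + 1)} - 1) = 0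
    rw [show (0 : ℕ) + 1 = 1 from rfl, hF 0 1 (by omega) (by omega), d0, d1, R.lost]
    ring
  have c1 : c 1 = -th {x 1, x 2} := by
    rw [hc]
    show th {x 1, x (1 + 1)} * (St.Fm (Df j) (SV m x) {x 1, x (1 + 1)} - 1) = _
    rw [show (1 : ℕ) + 1 = 2 from rfl, hF 1 2 (by omega) (by omega), d1,
      dk 2 le_rfl (by omega), R.zero H (by omega) (by omega) (by omega)]
    ring
  have cm : c (m - 1) = th {x (m - 1), x m} := by
    rw [hc, show m - 1 + 1 = m by omega]
    show th {x (m - 1), x m} * (St.Fm (Df j) (SV m x) {x (m - 1), x m} - 1) = _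
    rw [hF (m - 1) m (by omega) le_rfl, dm, dk (m - 1) (by omega) (by omega),
      R.zero H (by omega) le_rfl (by omega)]
    ring
  have ck : ∀ k, k < m → k ≠ 1 → k ≠ m - 1 → c k = 0 := by
    intro k hk h2 h3
    rcases Nat.eq_zero_or_pos k with rfl | h4
    · exact c0
    · rw [hc]
      show th {x k, x (k + 1)} * (St.Fm (Df j) (SV m x) {x k, x (k + 1)} - 1) = 0
      rw [hF k (k + 1) (by omega) (by omega), dk k (by omega) hk, dk (k + 1) (by omega) (by omega),
        R.zero H (by omega) (by omega) (by omega)]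
      ring
  have g0m : g {x 0, x m} = 0 := by
    show th {x 0, x m} * (St.Fm (Df j) (SV m x) {x 0, x m} - 1) = 0
    rw [hF 0 m (by omega) le_rfl, d0, dm, R.new]
    ring
  have hsum : ∑ k ∈ range m, c k = c 1 + c (m - 1) := by
    refine StE_sum_two (by omega) (mem_range.2 (by omega)) (mem_range.2 (by omega)) ?_
    intro b hb h2 h3
    exact ck b (mem_range.1 hb) h2 h3
  have hP2 : St.P2 (SV m x) g = 2 * ∑ k ∈ range m, c k := by
    have e1 : St.P2 (SV m x) g = ∑ v ∈ SV m x, St.dg g (SV m x) v := rfl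
    have e2 : ∀ a ∈ range (n + 2), St.dg g (SV m x) (x (a + 1)) = c a + c (a + 1) := by
      intro a ha
      rw [mem_range] at ha
      rw [S.row_mid hong (by omega), hc a, hc (a + 1)]
    have e3 : g {x (m - 1), x m} = c (m - 1) := by
      rw [hc, show m - 1 + 1 = m by omega]
    have e4 : g {x 0, x 1} = c 0 := by
      rw [hc]
    rw [e1, S.sum_split (n := n + 1) hn, S.row_first (by omega) hong, S.row_last (by omega) hong,
      sum_congr rfl e2, Ar_sum_two (n + 1) c, g0m, e3, e4, hn,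
      show n + 3 - 1 = n + 1 + 1 by omega, show n + 1 + 2 = n + 3 by omega]
    ring
  rw [St.ct_star hS, hP2, hsum, c1, cm]
  ring

/-- `PD` and `PU` hang at the edges of the row and at the pair of its ends -/
lemma Rw.th_strip (S : Rw P j t m x) (H : Gr P r) :
    OnStrip m x (fun e => T6N.thD j e - T6N.thU j e) := by
  intro a b h2 h3 h4
  have e1 : T6N.thD j {x a, x b} = 0 := by
    by_contra hcon
    have := T6_thD H hcon
    have := S.dcv_far h2 h3 h4
    omega
  have e2 : T6N.thU j {x a, x b} = 0 := by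
    by_contra hcon
    have h5 := T6_thU H hcon
    rw [S.ucv_x a b (by omega) h3 (by omega), if_neg (by omega)] at h5
    omega
  show T6N.thD j {x a, x b} - T6N.thU j {x a, x b} = 0
  rw [e1, e2, sub_zero]

/-- the possible components of the first bad level -/
def T6case (P : Type u) [Fintype P] [PartialOrder P] [DecidableEq P] (j : ℕ) (t : P) : Prop :=
  NatT j t ∨ (St.wt0 j t).card ≤ 3 ∨ ∃ m x, RotR P j t m x ∧ T6N.thD j {x 1, x 2} = 0 ∧
    T6N.thU j {x (m - 1), x m} ≤ 1

section main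

variable (h : GoodTo P r j) (hj : 1 ≤ j) (hr : j + 1 ≤ r)
  (hno : ∀ z : P, lev z = j + 1 → ¬ Hul.Jn z)

include h hno in
lemma T6_nonneg (ht : lev t = 0) (hc : T6case P j t) :
    St.Tight (Df j) (St.wt0 j t) ∧
      0 ≤ St.ct (Df j) (fun e => T6N.thD j e - T6N.thU j e) (St.wt0 j t) := by
  have h1 := S6_mp h hno ht
  rcases hc with hc | hc | ⟨m, x, R, hD, hU⟩
  · rw [natT_iff h.H] at hc
    exact ⟨St.tight_of_zero hc, by rw [St.ct_zero hc]⟩
  · exact ⟨St.tight_of_card hc, (St.ct_small hc h1).1⟩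
  · rw [R.row.wt_eq] at h1 ⊢
    refine ⟨St.tight_of_star (R.starry h.H), ?_⟩
    rw [R.ct h.H h1 (R.row.th_strip h.H)]
    have e1 := T6N.thD_nonneg j {x (m - 1), x m}
    have e2 := T6N.thU_nonneg j {x 1, x 2}
    show 0 ≤ 2 + 2 * (T6N.thD j {x (m - 1), x m} - T6N.thU j {x (m - 1), x m}) -
      2 * (T6N.thD j {x 1, x 2} - T6N.thU j {x 1, x 2})
    linarith

include h hj hr hno in
/-- every contribution vanishes -/
theorem T6_zero (hcase : ∀ t : P, lev t = 0 → T6case P j t) (ht : lev t = 0) :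
    St.ct (Df j) (fun e => T6N.thD j e - T6N.thU j e) (St.wt0 j t) = 0 := by
  have h1 := T6_sum h hj hr hno (fun t ht => (T6_nonneg h hno ht (hcase t ht)).1)
  exact (sum_eq_zero_iff_of_nonneg (fun t ht => (T6_nonneg h hno (mem_lv.1 ht)
    (hcase t (mem_lv.1 ht))).2)).1 h1 t (mem_lv.2 ht)

include h hj hr hno in
/-- T6, components with at most three sites: natural -/
theorem T6_small (hcase : ∀ t : P, lev t = 0 → T6case P j t) (ht : lev t = 0)
    (hc : (St.wt0 j t).card ≤ 3) : NatT j t := by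
  rw [natT_iff h.H]
  exact (St.ct_small hc (S6_mp h hno ht)).2 (T6_zero h hj hr hno hcase ht)

include h hj hr hno in
/-- T6, rotations -/
theorem T6_rot (hcase : ∀ t : P, lev t = 0 → T6case P j t) (ht : lev t = 0)
    (R : RotR P j t m x) (hD : T6N.thD j {x 1, x 2} = 0)
    (hU : T6N.thU j {x (m - 1), x m} ≤ 1) :
    T6N.thU j {x (m - 1), x m} = 1 ∧ T6N.thD j {x (m - 1), x m} = 0 ∧
      T6N.thU j {x 1, x 2} = 0 := by
  have h1 := S6_mp h hno ht
  have h2 := T6_zero h hj hr hno hcase ht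
  rw [R.row.wt_eq] at h1 h2
  rw [R.ct h.H h1 (R.row.th_strip h.H)] at h2
  have h3 : 2 + 2 * (T6N.thD j {x (m - 1), x m} - T6N.thU j {x (m - 1), x m}) -
      2 * (T6N.thD j {x 1, x 2} - T6N.thU j {x 1, x 2}) = 0 := h2
  have e1 := T6N.thD_nonneg j {x (m - 1), x m}
  have e2 := T6N.thU_nonneg j {x 1, x 2}
  refine ⟨by linarith, by linarith, by linarith⟩

include h hj hr hno in
/-- T6, FINAL FORM of row 474 -/
theorem T6_final (hcase : ∀ t : P, lev t = 0 → T6case P j t) (ht : lev t = 0) :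
    NatT j t ∨ ∃ m x, RotR P j t m x ∧ T6N.thD j {x 1, x 2} = 0 ∧
      T6N.thU j {x (m - 1), x m} = 1 ∧ T6N.thD j {x (m - 1), x m} = 0 ∧
      T6N.thU j {x 1, x 2} = 0 := by
  rcases hcase t ht with hc | hc | ⟨m, x, R, hD, hU⟩
  · exact Or.inl hc
  · exact Or.inl (T6_small h hj hr hno hcase ht hc)
  · obtain ⟨h1, h2, h3⟩ := T6_rot h hj hr hno hcase ht R hD hU
    exact Or.inr ⟨m, x, R, hD, h1, h2, h3⟩

include h hj hr hno in
/-- the level is good if there are no rotated rows with at least four sites -/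
theorem T6_good (hcase : ∀ t : P, lev t = 0 → NatT j t ∨ (St.wt0 j t).card ≤ 3) :
    Good P j := by
  have hc : ∀ t : P, lev t = 0 → T6case P j t := fun t ht =>
    (hcase t ht).elim Or.inl (fun h1 => Or.inr (Or.inl h1))
  have hnat : ∀ t : P, lev t = 0 → NatT j t := fun t ht =>
    (hcase t ht).elim id (fun h1 => T6_small h hj hr hno hc ht h1)
  intro v v' hv hv' hne
  obtain ⟨t, ht, ht2⟩ := exists_above' (x := v) (j := 0) (Nat.zero_le _)
  obtain ⟨t', ht', ht2'⟩ := exists_above' (x := v') (j := 0) (Nat.zero_le _)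
  by_cases htt : t = t'
  · subst htt
    exact hnat t ht2 v v' hv hv' ht ht' hne
  · obtain ⟨-, h2, h3⟩ := S6_cross h hno (mem_lv.2 ht2) (mem_lv.2 ht2') htt
      (St.mem_wt0.2 ⟨hv, ht⟩) (St.mem_wt0.2 ⟨hv', ht'⟩)
    rw [h2, h3]

end main

end Pool.Agent.GaussPoset.Win
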