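import Pool.Agent.W_448st_h88.MgE

/-! Matching polynomials: blocks, and weights without disjoint edges (MP_448cb3_co). -/

namespace Pool.Agent.GaussPoset.St

set_option linter.unusedSectionVars false

open Finset Polynomial

section loc

variable {α : Type*} [DecidableEq α] {A : Finset α → ℤ}

variable {ι : Type*} [DecidableEq ι] {s : Finset ι} {W : ι → Finset α}

/-- blocks without crossing weights whose matching polynomials are one -/
structure Blk (A : Finset α → ℤ) (s : Finset ι) (W : ι → Finset α) : Prop where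
  disj : ∀ i ∈ s, ∀ j ∈ s, i ≠ j → Disjoint (W i) (W j)
  zero : ∀ i ∈ s, ∀ j ∈ s, i ≠ j → ∀ u ∈ W i, ∀ w ∈ W j, A {u, w} = 0
  one : ∀ i ∈ s, mp A (W i) = 1

lemma Blk.Fm_loc (B : Blk A s W) {i : ι} (hi : i ∈ s) {T : Finset α} (hT : T ⊆ W i) :
    Fm A (s.biUnion W) T = Fm A (W i) T := by
  have h1 : s.biUnion W \ T = (W i \ T) ∪ (s.erase i).biUnion W := by
    ext u
    simp only [mem_sdiff, mem_biUnion, mem_union, mem_erase]
    constructor
    · rintro ⟨⟨j, hj, hu⟩, hn⟩
      by_cases h : j = i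
      · subst h
        exact Or.inl ⟨hu, hn⟩
      · exact Or.inr ⟨j, ⟨h, hj⟩, hu⟩
    · rintro (⟨h1, h2⟩ | ⟨j, ⟨h1, h2⟩, h3⟩)
      · exact ⟨⟨i, hi, h1⟩, h2⟩
      · exact ⟨⟨j, h2, h3⟩, fun h4 => disjoint_left.1 (B.disj j h2 i hi h1) h3 (hT h4)⟩
  have h2 : mp A ((s.erase i).biUnion W) = 1 := by
    rw [mp_biUnion]
    · exact prod_eq_one fun j hj => B.one j (mem_of_mem_erase hj)
    · exact fun a ha b hb hab => B.disj a (mem_of_mem_erase ha) b (mem_of_mem_erase hb) hab
    · exact fun a ha b hb hab => B.zero a (mem_of_mem_erase ha) b (mem_of_mem_erase hb) hab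
  unfold Fm
  rw [h1, mp_union, h2, mul_one]
  · rw [disjoint_left]
    intro u hu hu'
    obtain ⟨j, hj, h3⟩ := mem_biUnion.1 hu'
    rw [mem_erase] at hj
    exact disjoint_left.1 (B.disj j hj.2 i hi hj.1) h3 (mem_sdiff.1 hu).1
  · intro u hu w hw
    obtain ⟨j, hj, h3⟩ := mem_biUnion.1 hw
    rw [mem_erase] at hj
    exact B.zero i hi j hj.2 (Ne.symm hj.1) u (mem_sdiff.1 hu).1 w h3

lemma Blk.sub {i : ι} (hi : i ∈ s) {v : α} (hv : v ∈ W i) : v ∈ s.biUnion W :=
  mem_biUnion.2 ⟨i, hi, hv⟩

/-- a sum over the pairs at `v` -/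
lemma Blk.sum_loc {g : α → α → ℤ}
    (hg : ∀ i ∈ s, ∀ j ∈ s, i ≠ j → ∀ u ∈ W i, ∀ w ∈ W j, g u w = 0) {i : ι} (hi : i ∈ s)
    {v : α} (hv : v ∈ W i) :
    ∑ w ∈ (s.biUnion W).erase v, g v w = ∑ w ∈ (W i).erase v, g v w := by
  symm
  refine sum_subset (erase_subset_erase _ (subset_biUnion_of_mem W hi)) ?_
  intro w hw hn
  rw [mem_erase, mem_biUnion] at hw
  obtain ⟨h1, j, hj, h2⟩ := hw
  have hji : i ≠ j := by
    rintro rfl
    exact hn (mem_erase.2 ⟨h1, h2⟩)
  exact hg i hi j hj hji v hv w h2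

lemma Blk.sum2_loc (hd : ∀ i ∈ s, ∀ j ∈ s, i ≠ j → Disjoint (W i) (W j)) {g : α → α → ℤ}
    (hg : ∀ i ∈ s, ∀ j ∈ s, i ≠ j → ∀ u ∈ W i, ∀ w ∈ W j, g u w = 0) :
    ∑ u ∈ s.biUnion W, ∑ w ∈ (s.biUnion W).erase u, g u w =
      ∑ i ∈ s, ∑ u ∈ W i, ∑ w ∈ (W i).erase u, g u w := by
  rw [sum_biUnion (fun i hi j hj hij => hd i hi j hj hij)]
  exact sum_congr rfl fun i hi => sum_congr rfl fun u hu => Blk.sum_loc hg hi hu

lemma Blk.dg_loc (B : Blk A s W) {i : ι} (hi : i ∈ s) {v : α} (hv : v ∈ W i) :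
    dg A (s.biUnion W) v = dg A (W i) v :=
  Blk.sum_loc (g := fun u w => A {u, w}) B.zero hi hv

lemma Blk.gg_loc (B : Blk A s W) {i : ι} (hi : i ∈ s) {v : α} (hv : v ∈ W i) :
    gg A (s.biUnion W) v = gg A (W i) v := by
  rw [gg_sub (N := (W i).erase v)]
  · unfold gg
    refine sum_congr rfl fun S hS => ?_
    rw [mem_powerset] at hS
    rw [B.Fm_loc hi]
    rw [insert_subset_iff]
    exact ⟨hv, hS.trans (erase_subset _ _)⟩
  · exact erase_subset_erase _ (subset_biUnion_of_mem W hi)
  · intro y hy hn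
    rw [mem_erase, mem_biUnion] at hy
    obtain ⟨h1, j, hj, h2⟩ := hy
    have hji : i ≠ j := by
      rintro rfl
      exact hn (mem_erase.2 ⟨h1, h2⟩)
    exact B.zero i hi j hj hji v hv y h2

end loc

section tight

variable {α : Type*} [DecidableEq α] {A : Finset α → ℤ} {V U T : Finset α}

/-- no two disjoint edges -/
def Tight (A : Finset α → ℤ) (V : Finset α) : Prop :=
  ∀ e ∈ V.powersetCard 2, ∀ f ∈ V.powersetCard 2, Disjoint e f → A e = 0 ∨ A f = 0

lemma Tight.mp_eq (h : Tight A V) (hU : U ⊆ V) : mp A U = 1 + C ((mp A U).coeff 1) * X := by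
  ext k
  rcases Nat.lt_or_ge k 2 with hk | hk
  · have hk' : k = 0 ∨ k = 1 := by omega
    rcases hk' with rfl | rfl
    · rw [coeff_zero_mp]
      simp
    · simp [coeff_one]
  · rw [coeff_mp, coeff_add, coeff_one, if_neg (by omega), coeff_C_mul, coeff_X,
      if_neg (by omega), mul_zero, add_zero]
    refine sum_eq_zero fun M hM => ?_
    rw [mem_filter, mem_MS] at hM
    obtain ⟨⟨h1, h2⟩, h3⟩ := hM
    obtain ⟨e, he, f, hf, hef⟩ := one_lt_card.1 (show 1 < M.card by omega)
    have key : ∀ e ∈ M, e ∈ V.powersetCard 2 := fun e he =>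
      mem_powersetCard.2 ⟨(h1 e he).1.trans hU, (h1 e he).2⟩
    rcases h e (key e he) f (key f hf) (h2 (mem_coe.2 he) (mem_coe.2 hf) hef) with h4 | h4
    · exact prod_eq_zero he h4
    · exact prod_eq_zero hf h4

lemma Tight.Fm_eq (h : Tight A V) (T : Finset α) : Fm A V T = 1 - (mp A (V \ T)).coeff 1 := by
  unfold Fm
  conv_lhs => rw [h.mp_eq sdiff_subset]
  rw [eval_add, eval_one, eval_mul, eval_C, eval_X]
  ring

lemma coeff_one_erase {v : α} (hv : v ∈ V) :
    (mp A (V.erase v)).coeff 1 = (mp A V).coeff 1 - dg A V v := by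
  have h := coeff_one_insert (A := A) (notMem_erase v V)
  rw [insert_erase hv] at h
  unfold dg
  linarith

lemma dg_erase {u w : α} (hu : u ∈ V) (huw : u ≠ w) :
    dg A (V.erase u) w = dg A V w - A {u, w} := by
  unfold dg
  have h1 : u ∈ V.erase w := mem_erase.2 ⟨huw, hu⟩
  rw [erase_right_comm, ← sum_erase_add _ _ h1, pair_comm w u]
  ring

lemma Tight.F_one (h : Tight A V) (h1 : mp A V = 1) {u : α} (hu : u ∈ V) :
    Fm A V {u} = 1 + dg A V u := by
  rw [h.Fm_eq, sdiff_singleton_eq_erase, coeff_one_erase hu, h1, coeff_one, if_neg (by norm_num)]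
  ring

lemma Tight.F_two (h : Tight A V) (h1 : mp A V = 1) {u w : α} (hu : u ∈ V) (hw : w ∈ V)
    (huw : u ≠ w) : Fm A V {u, w} = 1 + dg A V u + dg A V w - A {u, w} := by
  have e1 : V \ {u, w} = (V.erase u).erase w := by
    ext x
    simp only [mem_sdiff, mem_insert, mem_singleton, mem_erase]
    tauto
  rw [h.Fm_eq, e1, coeff_one_erase (mem_erase.2 ⟨huw.symm, hw⟩), coeff_one_erase hu, h1,
    dg_erase hu huw, coeff_one, if_neg (by norm_num)]
  ring

/-- no edges -/
lemma tight_of_zero (h : ∀ u ∈ V, ∀ w ∈ V, u ≠ w → A {u, w} = 0) : Tight A V := by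
  intro e he f _ _
  left
  rw [mem_powersetCard] at he
  obtain ⟨u, w, huw, rfl⟩ := card_eq_two.1 he.2
  exact h u (he.1 (mem_insert_self _ _)) w (he.1 (mem_insert_of_mem (mem_singleton_self _))) huw

/-- at most three vertices -/
lemma tight_of_card (h : V.card ≤ 3) : Tight A V := by
  intro e he f hf hef
  exfalso
  rw [mem_powersetCard] at he hf
  have h1 := card_union_of_disjoint hef
  have h2 := card_le_card (union_subset he.1 hf.1)
  omega

/-- one star -/
lemma tight_of_star {d : α × α × α} (H : Starry A V {d}) : Tight A V := by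
  have hs := H.star d (mem_singleton_self _)
  have key : ∀ e ∈ V.powersetCard 2, A e ≠ 0 → d.1 ∈ e := by
    intro e he hne
    rw [mem_powersetCard] at he
    obtain ⟨u, w, huw, rfl⟩ := card_eq_two.1 he.2
    have hu := he.1 (mem_insert_self _ _)
    have hw := he.1 (mem_insert_of_mem (mem_singleton_self w))
    by_contra hd
    rw [mem_insert, mem_singleton, not_or] at hd
    apply hne
    by_cases h : u ∈ sp d ∧ w ∈ sp d
    · rw [mem_sp, mem_sp] at h
      rcases h with ⟨h1 | h1 | h1, h2 | h2 | h2⟩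
      · exact absurd h1.symm hd.1
      · exact absurd h1.symm hd.1
      · exact absurd h1.symm hd.1
      · exact absurd h2.symm hd.2
      · exact absurd (h1.trans h2.symm) huw
      · rw [h1, h2]
        exact hs.Aab
      · exact absurd h2.symm hd.2
      · rw [h1, h2, pair_comm]
        exact hs.Aab
      · exact absurd (h1.trans h2.symm) huw
    · refine H.zero u hu w hw huw ?_
      intro d' hd'
      rw [mem_singleton] at hd'
      rw [hd']
      exact h
  intro e he f hf hef
  by_contra hcon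
  rw [not_or] at hcon
  exact disjoint_left.1 hef (key e he hcon.1) (key f hf hcon.2)

end tight

section small

variable {α : Type*} [DecidableEq α] {A : Finset α → ℤ}

lemma dg_three {a b c : α} (hab : a ≠ b) (hac : a ≠ c) (hbc : b ≠ c) :
    dg A {a, b, c} a = A {a, b} + A {a, c} := by
  unfold dg
  have h1 : ({a, b, c} : Finset α).erase a = {b, c} := by
    ext x
    simp only [mem_erase, mem_insert, mem_singleton]
    constructor
    · rintro ⟨h1, h2 | h2 | h2⟩
      · exact absurd h2 h1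
      · exact Or.inl h2
      · exact Or.inr h2
    · rintro (h | h)
      · exact ⟨by rw [h]; exact hab.symm, Or.inr (Or.inl h)⟩
      · exact ⟨by rw [h]; exact hac.symm, Or.inr (Or.inr h)⟩
  rw [h1, sum_pair hbc]

lemma sum_three {a b c : α} (hab : a ≠ b) (hac : a ≠ c) (hbc : b ≠ c)
    (h : mp A {a, b, c} = 1) : A {a, b} + A {a, c} + A {b, c} = 0 := by
  have h1 := P2_eq_zero h
  unfold P2 at h1
  rw [sum_insert (by simp [hab, hac]), sum_pair hbc] at h1
  have e1 := dg_three (A := A) hab hac hbc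
  have e2 := dg_three (A := A) hab.symm hbc hac
  have e3 := dg_three (A := A) hac.symm hbc.symm hab
  rw [show ({b, a, c} : Finset α) = {a, b, c} from Finset.insert_comm _ _ _,
    pair_comm b a] at e2
  rw [show ({c, a, b} : Finset α) = {a, b, c} by
    rw [Finset.insert_comm c a, pair_comm c b], pair_comm c a, pair_comm c b] at e3
  unfold dg at e1 e2 e3
  rw [e1, e2, e3] at h1
  linarith

lemma gg_three {a b c : α} (hab : a ≠ b) (hac : a ≠ c) (hbc : b ≠ c)
    (h : mp A {a, b, c} = 1) :
    gg A {a, b, c} a = 1 + 2 * (A {a, b} + A {a, c}) + A {a, b} * A {a, c} := by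
  have ht : Tight A ({a, b, c} : Finset α) := tight_of_card (card_le_three)
  have hs := sum_three hab hac hbc h
  have e1 := dg_three (A := A) hab hac hbc
  have e2 := dg_three (A := A) hab.symm hbc hac
  have e3 := dg_three (A := A) hac.symm hbc.symm hab
  rw [show ({b, a, c} : Finset α) = {a, b, c} from Finset.insert_comm _ _ _,
    pair_comm b a] at e2
  rw [show ({c, a, b} : Finset α) = {a, b, c} by
    rw [Finset.insert_comm c a, pair_comm c b], pair_comm c a, pair_comm c b] at e3
  have ma : a ∈ ({a, b, c} : Finset α) := by simp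
  have mb : b ∈ ({a, b, c} : Finset α) := by simp
  have mc : c ∈ ({a, b, c} : Finset α) := by simp
  have f1 := ht.F_one h ma
  have f2 := ht.F_two h ma mb hab
  have f3 := ht.F_two h ma mc hac
  have f4 : Fm A {a, b, c} {a, b, c} = 1 := by
    unfold Fm
    rw [sdiff_self, bot_eq_empty, mp_empty, eval_one]
  have h1 : ({a, b, c} : Finset α).erase a = insert b {c} := by
    ext x
    simp only [mem_erase, mem_insert, mem_singleton]
    constructor
    · rintro ⟨h1, h2 | h2 | h2⟩
      · exact absurd h2 h1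
      · exact Or.inl h2
      · exact Or.inr h2
    · rintro (h | h)
      · exact ⟨by rw [h]; exact hab.symm, Or.inr (Or.inl h)⟩
      · exact ⟨by rw [h]; exact hac.symm, Or.inr (Or.inr h)⟩
  have h2 : b ∉ ({c} : Finset α) := by
    rw [mem_singleton]
    exact hbc
  have h3 : (∅ : Finset α) ≠ {c} := (singleton_ne_empty c).symm
  have h4 : insert b (∅ : Finset α) = {b} := LawfulSingleton.insert_empty_eq b
  have h5 : insert a (∅ : Finset α) = {a} := LawfulSingleton.insert_empty_eq a
  unfold gg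
  rw [h1, sum_powerset_insert h2, pow_single, sum_pair h3, sum_pair h3, h4, h5, prod_empty,
    prod_singleton, prod_singleton, prod_insert h2, prod_singleton]
  rw [show insert a ({b} : Finset α) = {a, b} from rfl,
    show insert a (insert b ({c} : Finset α)) = {a, b, c} from rfl,
    show insert a ({c} : Finset α) = {a, c} from rfl, f1, f2, f3, f4, e1, e2, e3]
  linear_combination (A {a, b} + A {a, c}) * hs

lemma sum_gg_three {a b c : α} (hab : a ≠ b) (hac : a ≠ c) (hbc : b ≠ c)
    (h : mp A {a, b, c} = 1) :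
    2 * ∑ v ∈ ({a, b, c} : Finset α), (gg A {a, b, c} v - 1) =
      -(A {a, b} ^ 2 + A {a, c} ^ 2 + A {b, c} ^ 2) := by
  have hs := sum_three hab hac hbc h
  have e1 := gg_three hab hac hbc h
  have e2 := gg_three (A := A) hab.symm hbc hac (by
    rw [show ({b, a, c} : Finset α) = {a, b, c} from Finset.insert_comm _ _ _]
    exact h)
  have e3 := gg_three (A := A) hac.symm hbc.symm hab (by
    rw [show ({c, a, b} : Finset α) = {a, b, c} by
      rw [Finset.insert_comm c a, pair_comm c b]]
    exact h)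
  rw [show ({b, a, c} : Finset α) = {a, b, c} from Finset.insert_comm _ _ _,
    pair_comm b a] at e2
  rw [show ({c, a, b} : Finset α) = {a, b, c} by
    rw [Finset.insert_comm c a, pair_comm c b], pair_comm c a, pair_comm c b] at e3
  rw [sum_insert (by simp [hab, hac]), sum_pair hbc, e1, e2, e3]
  linear_combination (8 + (A {a, b} + A {a, c} + A {b, c})) * hs

end small

end Pool.Agent.GaussPoset.St
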