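import Pool.Agent.W_448t6_h16.TA

/-! The difference of two identities, localised on the blocks (MP_448cb3_co). -/

namespace Pool.Agent.GaussPoset.St

set_option linter.unusedSectionVars false

open Finset Polynomial

section ct

variable {α : Type*} [DecidableEq α] {A : Finset α → ℤ}

/-- the contribution of a block -/
noncomputable def ct (A th : Finset α → ℤ) (V : Finset α) : ℤ :=
  P2 V (fun e => th e * (Fm A V e - 1)) - 2 * ∑ v ∈ V, (gg A V v - 1)

variable {ι : Type*} [DecidableEq ι] {s : Finset ι} {W : ι → Finset α}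

/-- the contributions of the blocks have sum zero -/
theorem Blk.sum_ct (B : Blk A s W) (ht : ∀ i ∈ s, Tight A (W i)) {Bf th : Finset α → ℤ}
    {sg : α → ℤ}
    (hB : ∀ i ∈ s, ∀ j ∈ s, i ≠ j → ∀ u ∈ W i, ∀ w ∈ W j, Bf {u, w} = 0)
    (hth : ∀ i ∈ s, ∀ j ∈ s, i ≠ j → ∀ u ∈ W i, ∀ w ∈ W j, th {u, w} = 0)
    (h6 : ∑ u ∈ s.biUnion W, ∑ w ∈ (s.biUnion W).erase u, Bf {u, w} *
        (Fm A (s.biUnion W) {u, w} + Fm A (s.biUnion W) {u} + Fm A (s.biUnion W) {w} - 3) +
      2 * ∑ u ∈ s.biUnion W, ∑ w ∈ (s.biUnion W).erase u, th {u, w} *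
        Fm A (s.biUnion W) {u, w} =
      4 * ∑ v ∈ s.biUnion W, (gg A (s.biUnion W) v - 1) -
        4 * ∑ v ∈ s.biUnion W, sg v * (Fm A (s.biUnion W) {v} - 1))
    (h21 : 2 * ∑ u ∈ s.biUnion W, ∑ w ∈ (s.biUnion W).erase u, th {u, w} +
      4 * ∑ v ∈ s.biUnion W, dg A (s.biUnion W) v * sg v +
      4 * ∑ v ∈ s.biUnion W, dg A (s.biUnion W) v * dg Bf (s.biUnion W) v -
      ∑ u ∈ s.biUnion W, ∑ w ∈ (s.biUnion W).erase u, A {u, w} * Bf {u, w} = 0) :
    ∑ i ∈ s, ct A th (W i) = 0 := by
  set V := s.biUnion W with hV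
  have hF1 : ∀ v ∈ V, Fm A V {v} = 1 + dg A V v := by
    intro v hv
    obtain ⟨i, hi, h1⟩ := mem_biUnion.1 hv
    rw [hV, B.Fm_loc hi (singleton_subset_iff.2 h1), B.dg_loc hi h1]
    exact (ht i hi).F_one (B.one i hi) h1
  have hS : ∑ u ∈ V, ∑ w ∈ V.erase u, Bf {u, w} *
      (Fm A V {u, w} + Fm A V {u} + Fm A V {w} - 3) =
      ∑ u ∈ V, ∑ w ∈ V.erase u, (Bf {u, w} * (2 * dg A V u + 2 * dg A V w) -
        A {u, w} * Bf {u, w}) := by
    refine sum_congr rfl fun u hu => sum_congr rfl fun w hw => ?_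
    rw [mem_erase] at hw
    obtain ⟨i, hi, h1⟩ := mem_biUnion.1 hu
    obtain ⟨j, hj, h2⟩ := mem_biUnion.1 hw.2
    by_cases hij : i = j
    · subst hij
      have h3 : Fm A V {u, w} = 1 + dg A V u + dg A V w - A {u, w} := by
        rw [hV, B.Fm_loc hi, B.dg_loc hi h1, B.dg_loc hi h2]
        · exact (ht i hi).F_two (B.one i hi) h1 h2 hw.1.symm
        · intro x hx
          rw [mem_insert, mem_singleton] at hx
          rcases hx with rfl | rfl
          · exact h1
          · exact h2
      rw [h3, hF1 u hu, hF1 w hw.2]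
      ring
    · rw [hB i hi j hj hij u h1 w h2]
      ring
  have hD : ∑ v ∈ V, dg A V v * dg Bf V v = ∑ u ∈ V, ∑ w ∈ V.erase u, Bf {u, w} * dg A V u := by
    refine sum_congr rfl fun u _ => ?_
    rw [show dg Bf V u = ∑ w ∈ V.erase u, Bf {u, w} from rfl, mul_sum]
    exact sum_congr rfl fun w _ => mul_comm _ _
  have hD2 : ∑ u ∈ V, ∑ w ∈ V.erase u, Bf {u, w} * dg A V u =
      ∑ u ∈ V, ∑ w ∈ V.erase u, Bf {u, w} * dg A V w := by
    rw [sum_swap (V := V) (fun u w => Bf {u, w} * dg A V u)]
    refine sum_congr rfl fun u _ => sum_congr rfl fun w _ => ?_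
    rw [pair_comm]
  have hsg : ∑ v ∈ V, sg v * (Fm A V {v} - 1) = ∑ v ∈ V, dg A V v * sg v := by
    refine sum_congr rfl fun v hv => ?_
    rw [hF1 v hv]
    ring
  have hS2 : ∑ u ∈ V, ∑ w ∈ V.erase u, (Bf {u, w} * (2 * dg A V u + 2 * dg A V w) -
        A {u, w} * Bf {u, w}) = 2 * ∑ u ∈ V, ∑ w ∈ V.erase u, Bf {u, w} * dg A V u +
        2 * ∑ u ∈ V, ∑ w ∈ V.erase u, Bf {u, w} * dg A V w -
        ∑ u ∈ V, ∑ w ∈ V.erase u, A {u, w} * Bf {u, w} := by
    simp only [mul_sum, ← sum_add_distrib, ← sum_sub_distrib]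
    refine sum_congr rfl fun u _ => sum_congr rfl fun w _ => ?_
    ring
  have hth2 : ∑ u ∈ V, ∑ w ∈ V.erase u, th {u, w} * Fm A V {u, w} -
      ∑ u ∈ V, ∑ w ∈ V.erase u, th {u, w} =
      ∑ u ∈ V, ∑ w ∈ V.erase u, th {u, w} * (Fm A V {u, w} - 1) := by
    simp only [← sum_sub_distrib]
    refine sum_congr rfl fun u _ => sum_congr rfl fun w _ => ?_
    ring
  have hmain : ∑ u ∈ V, ∑ w ∈ V.erase u, th {u, w} * (Fm A V {u, w} - 1) =
      2 * ∑ v ∈ V, (gg A V v - 1) := by
    rw [← hth2]
    rw [hS, hS2, hsg, ← hD2, ← hD] at h6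
    linarith
  have hL : ∑ u ∈ V, ∑ w ∈ V.erase u, th {u, w} * (Fm A V {u, w} - 1) =
      ∑ i ∈ s, P2 (W i) (fun e => th e * (Fm A (W i) e - 1)) := by
    rw [hV, Blk.sum2_loc (g := fun u w => th {u, w} * (Fm A (s.biUnion W) {u, w} - 1)) B.disj]
    · refine sum_congr rfl fun i hi => ?_
      unfold P2
      refine sum_congr rfl fun u hu => sum_congr rfl fun w hw => ?_
      rw [B.Fm_loc hi]
      intro x hx
      rw [mem_insert, mem_singleton] at hx
      rcases hx with rfl | rfl
      · exact hu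
      · exact mem_of_mem_erase hw
    · intro i hi j hj hij u hu w hw
      rw [hth i hi j hj hij u hu w hw, zero_mul]
  have hR : ∑ v ∈ V, (gg A V v - 1) = ∑ i ∈ s, ∑ v ∈ W i, (gg A (W i) v - 1) := by
    rw [hV, sum_biUnion (fun i hi j hj hij => B.disj i hi j hj hij)]
    refine sum_congr rfl fun i hi => sum_congr rfl fun v hv => ?_
    rw [B.gg_loc hi hv]
  rw [hL, hR] at hmain
  unfold ct
  rw [sum_sub_distrib, hmain, mul_sum]
  ring

/-- no edges: the contribution is zero -/
lemma ct_zero {V : Finset α} {th : Finset α → ℤ}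
    (h : ∀ u ∈ V, ∀ w ∈ V, u ≠ w → A {u, w} = 0) : ct A th V = 0 := by
  have hF : ∀ T, Fm A V T = 1 := fun T => Fm_of_zero fun u hu w hw huw =>
    h u (mem_sdiff.1 hu).1 w (mem_sdiff.1 hw).1 huw
  have hg : ∀ v ∈ V, gg A V v = 1 := by
    intro v hv
    rw [gg_sub (N := ∅) (empty_subset _)]
    · rw [powerset_empty, sum_singleton, prod_empty, one_mul, hF]
    · intro y hy _
      exact h v hv y (mem_of_mem_erase hy) (ne_of_mem_erase hy).symm
  unfold ct P2
  rw [sum_eq_zero, sum_eq_zero]
  · ring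
  · intro v hv
    rw [hg v hv]
    ring
  · intro u _
    refine sum_eq_zero fun w _ => ?_
    beta_reduce
    rw [hF]
    ring

/-- at most three vertices: the contribution is the sum of the squares -/
lemma ct_small {V : Finset α} {th : Finset α → ℤ} (hV : V.card ≤ 3) (h1 : mp A V = 1) :
    0 ≤ ct A th V ∧ (ct A th V = 0 → ∀ u ∈ V, ∀ w ∈ V, u ≠ w → A {u, w} = 0) := by
  rcases Nat.lt_or_ge V.card 3 with h3 | h3
  · have hz : ∀ u ∈ V, ∀ w ∈ V, u ≠ w → A {u, w} = 0 := by
      intro u hu w hw huw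
      have hV2 : V = {u, w} := by
        symm
        apply eq_of_subset_of_card_le
        · intro x hx
          rw [mem_insert, mem_singleton] at hx
          rcases hx with rfl | rfl
          · exact hu
          · exact hw
        · rw [card_pair huw]
          omega
      rw [hV2, mp_two huw] at h1
      have h4 := congrArg (fun p : Polynomial ℤ => p.coeff 1) h1
      simpa [Polynomial.coeff_one] using h4
    rw [ct_zero hz]
    exact ⟨le_rfl, fun _ => hz⟩
  · obtain ⟨a, b, c, hab, hac, hbc, rfl⟩ := card_eq_three.1 (le_antisymm hV h3)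
    have hg := sum_gg_three hab hac hbc h1
    have hs := sum_three hab hac hbc h1
    have hF : ∀ u ∈ ({a, b, c} : Finset α), ∀ w ∈ ({a, b, c} : Finset α), u ≠ w →
        Fm A {a, b, c} {u, w} = 1 := by
      intro u hu w hw huw
      refine Fm_of_zero ?_
      intro x hx y hy hxy
      exfalso
      rw [mem_sdiff] at hx hy
      have h5 : ({u, w, x, y} : Finset α) ⊆ {a, b, c} := by
        intro z hz
        simp only [mem_insert, mem_singleton] at hz
        rcases hz with rfl | rfl | rfl | rfl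
        · exact hu
        · exact hw
        · exact hx.1
        · exact hy.1
      have h6 := card_le_card h5
      have h7 : ({u, w, x, y} : Finset α).card = 4 := by
        rw [card_insert_of_notMem, card_insert_of_notMem, card_pair hxy]
        · intro h8
          rw [mem_insert, mem_singleton] at h8
          rcases h8 with rfl | rfl
          · exact hx.2 (by simp)
          · exact hy.2 (by simp)
        · intro h8
          rw [mem_insert, mem_insert, mem_singleton] at h8
          rcases h8 with h8 | rfl | rfl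
          · exact huw h8
          · exact hx.2 (by simp)
          · exact hy.2 (by simp)
      omega
    have hct : ct A th {a, b, c} = A {a, b} ^ 2 + A {a, c} ^ 2 + A {b, c} ^ 2 := by
      unfold ct P2
      rw [sum_eq_zero]
      · linarith
      · intro u hu
        refine sum_eq_zero fun w hw => ?_
        beta_reduce
        rw [hF u hu w (mem_of_mem_erase hw) (ne_of_mem_erase hw).symm]
        ring
    rw [hct]
    have q1 := sq_nonneg (A {a, b})
    have q2 := sq_nonneg (A {a, c})
    have q3 := sq_nonneg (A {b, c})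
    refine ⟨by linarith, fun h0 => ?_⟩
    have z1 : A {a, b} = 0 := by
      have : A {a, b} ^ 2 = 0 := by linarith
      exact pow_eq_zero_iff (two_ne_zero) |>.1 this
    have z2 : A {a, c} = 0 := by
      have : A {a, c} ^ 2 = 0 := by linarith
      exact pow_eq_zero_iff (two_ne_zero) |>.1 this
    have z3 : A {b, c} = 0 := by
      have : A {b, c} ^ 2 = 0 := by linarith
      exact pow_eq_zero_iff (two_ne_zero) |>.1 this
    intro u hu w hw huw
    simp only [mem_insert, mem_singleton] at hu hw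
    rcases hu with rfl | rfl | rfl <;> rcases hw with rfl | rfl | rfl <;>
      first
        | exact absurd rfl huw
        | assumption
        | (rw [pair_comm]; assumption)

/-- one star -/
lemma ct_star {V : Finset α} {th : Finset α → ℤ} {d : α × α × α} (H : Starry A V {d}) :
    ct A th V = P2 V (fun e => th e * (Fm A V e - 1)) + 2 := by
  unfold ct
  rw [H.sum_gg, card_singleton]
  ring

end ct

end Pool.Agent.GaussPoset.St
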