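import Pool.Agent.W_448t6_h16.TB
import Pool.Agent.W_448t6_h94.TsP
import Pool.Agent.W_448win_h16.E2Final
import Pool.Agent.W_448s6_h67.PcC
import Pool.Agent.W_448C_h48.StG

/-!
# T6 at the first bad level (MP_448cb3_co)

All levels less than `j` are good, no element of level `j + 1` is below two maximal elements, and in
every component of level `j` there are no two disjoint pairs of sites with nonzero defects.  Then the
contributions `ct` of the components have sum zero.
-/

namespace Pool.Agent.GaussPoset.Win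

set_option linter.unusedSectionVars false

open Finset

universe u

variable {P : Type u} [Fintype P] [PartialOrder P] [DecidableEq P] {r j : ℕ}

lemma T6_Bf (H : Gr P r) {v v' : P} (hv : lev v = j) (hne : v ≠ v') :
    St.Bf j {v, v'} = (dcv v v' : ℤ) + (ucv v v' : ℤ) := by
  unfold St.Bf
  rw [CoreC_L_pair H hv hne, CoreC_U_pair H hv hne]

/-- the sites of an element of `PD` have a common lower cover -/
lemma T6_thD (H : Gr P r) {u w : P} (h : T6N.thD j {u, w} ≠ 0) : 1 ≤ dcv u w := by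
  unfold T6N.thD at h
  have h1 : ((PD P j).filter (fun z => (uc z).biUnion (ns j) = {u, w})).card ≠ 0 := by
    intro h2
    rw [h2] at h
    exact h rfl
  obtain ⟨z, hz⟩ := card_pos.1 (Nat.pos_of_ne_zero h1)
  rw [mem_filter] at hz
  obtain ⟨hz1, hz2⟩ := hz
  obtain ⟨-, -, y, hy, -⟩ := mem_PD.1 hz1
  rw [T6N.PD_site hz1 hy H] at hz2
  have h3 : u ∈ uc y := by
    rw [hz2]
    exact mem_insert_self _ _
  have h4 : w ∈ uc y := by
    rw [hz2]
    exact mem_insert_of_mem (mem_singleton_self _)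
  exact StA_dcv_pos (mem_uc.1 h3) (mem_uc.1 h4)

/-- the sites of an element of `PU` have a common upper cover -/
lemma T6_thU (H : Gr P r) {u w : P} (h : T6N.thU j {u, w} ≠ 0) : 1 ≤ ucv u w := by
  unfold T6N.thU at h
  have h1 : ((PU P j).filter (fun z => (dc z).biUnion (ns j) = {u, w})).card ≠ 0 := by
    intro h2
    rw [h2] at h
    exact h rfl
  obtain ⟨z, hz⟩ := card_pos.1 (Nat.pos_of_ne_zero h1)
  rw [mem_filter] at hz
  obtain ⟨hz1, hz2⟩ := hz
  obtain ⟨hl, h5, y, hy, -⟩ := mem_PU.1 hz1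
  obtain ⟨y', hy'⟩ := card_eq_one.1 h5
  have h6 : y = y' := by
    have : y ∈ dc z := mem_dc.2 hy
    rw [hy', mem_singleton] at this
    exact this
  subst h6
  have h7 := lev_cov H hy
  have h8 : ns j y = dc y := by
    unfold ns
    rw [if_neg]
    omega
  rw [hy', singleton_biUnion, h8] at hz2
  have h3 : u ∈ dc y := by
    rw [hz2]
    exact mem_insert_self _ _
  have h4 : w ∈ dc y := by
    rw [hz2]
    exact mem_insert_of_mem (mem_singleton_self _)
  exact StA_ucv_pos (mem_dc.1 h3) (mem_dc.1 h4)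

lemma T6N.thU_nonneg (i : ℕ) (T : Finset P) : 0 ≤ T6N.thU i T := by
  unfold T6N.thU
  positivity

/-- the number of elements of `PD` -/
lemma T6_card_PD (H : Gr P r) : ∑ u ∈ lv P j, ∑ w ∈ (lv P j).erase u, T6N.thD j {u, w} =
    2 * ((PD P j).card : ℤ) := by
  have h1 := T6N.sum_fibre (S := PD P j) (V := lv P j) (g := fun z => (uc z).biUnion (ns j))
    (fun x hx => T6N.PD_pair H hx) (fun _ => 1)
  have h2 := St.two_mul_pairs (V := lv P j) (T6N.thD j)
  unfold St.P2 at h2
  rw [← h2]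
  unfold T6N.thD
  simp only [sum_const, nsmul_eq_mul, mul_one] at h1
  rw [h1]

/-- the number of elements of `PU` -/
lemma T6_card_PU (H : Gr P r) : ∑ u ∈ lv P j, ∑ w ∈ (lv P j).erase u, T6N.thU j {u, w} =
    2 * ((PU P j).card : ℤ) := by
  have h1 := T6N.sum_fibre (S := PU P j) (V := lv P j) (g := fun z => (dc z).biUnion (ns j))
    (fun x hx => T6N.PU_pair H hx) (fun _ => 1)
  have h2 := St.two_mul_pairs (V := lv P j) (T6N.thU j)
  unfold St.P2 at h2
  rw [← h2]
  unfold T6N.thU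
  simp only [sum_const, nsmul_eq_mul, mul_one] at h1
  rw [h1]

/-- identity (21) in terms of the defects -/
theorem T6_21 (H : Gr P r) (hj : 1 ≤ j) (hr : j + 1 ≤ r) :
    2 * ∑ u ∈ lv P j, ∑ w ∈ (lv P j).erase u, (T6N.thD j {u, w} - T6N.thU j {u, w}) +
      4 * ∑ v ∈ lv P j, St.dg (Df j) (lv P j) v * sing v +
      4 * ∑ v ∈ lv P j, St.dg (Df j) (lv P j) v * St.dg (St.Bf j) (lv P j) v -
      ∑ u ∈ lv P j, ∑ w ∈ (lv P j).erase u, Df j {u, w} * St.Bf j {u, w} = 0 := by
  rcases Nat.lt_or_ge (lv P j).card 2 with hb | hb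
  · have key : ∀ v ∈ lv P j, (lv P j).erase v = ∅ := by
      intro v hv
      rw [← Finset.card_eq_zero, Finset.card_erase_of_mem hv]
      omega
    have e1 : ∑ u ∈ lv P j, ∑ w ∈ (lv P j).erase u, (T6N.thD j {u, w} - T6N.thU j {u, w}) = 0 :=
      sum_eq_zero fun u hu => by rw [key u hu, sum_empty]
    have e2 : ∑ v ∈ lv P j, St.dg (Df j) (lv P j) v * sing v = 0 :=
      sum_eq_zero fun u hu => by
        unfold St.dg
        rw [key u hu, sum_empty, zero_mul]
    have e3 : ∑ v ∈ lv P j, St.dg (Df j) (lv P j) v * St.dg (St.Bf j) (lv P j) v = 0 :=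
      sum_eq_zero fun u hu => by
        unfold St.dg
        rw [key u hu, sum_empty, zero_mul]
    have e4 : ∑ u ∈ lv P j, ∑ w ∈ (lv P j).erase u, Df j {u, w} * St.Bf j {u, w} = 0 :=
      sum_eq_zero fun u hu => by rw [key u hu, sum_empty]
    rw [e1, e2, e3, e4]
    norm_num
  · have h := E21 H hj hr hb
    have hA : ∀ v ∈ lv P j, St.dg (Df j) (lv P j) v = dgD j v - dgT j v := by
      intro v hv
      unfold St.dg dgD dgT
      rw [← sum_sub_distrib]
      refine sum_congr rfl fun w hw => ?_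
      exact Df_pair H (mem_lv.1 hv) (ne_of_mem_erase hw).symm
    have hB : ∀ v ∈ lv P j, St.dg (St.Bf j) (lv P j) v = dgD j v + dgT j v := by
      intro v hv
      unfold St.dg dgD dgT
      rw [← sum_add_distrib]
      refine sum_congr rfl fun w hw => ?_
      exact T6_Bf H (mem_lv.1 hv) (ne_of_mem_erase hw).symm
    have e1 : ∑ u ∈ lv P j, ∑ w ∈ (lv P j).erase u, (T6N.thD j {u, w} - T6N.thU j {u, w}) =
        2 * ((PD P j).card : ℤ) - 2 * ((PU P j).card : ℤ) := by
      rw [← T6_card_PD H, ← T6_card_PU H]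
      simp only [← sum_sub_distrib]
    have e2 : ∑ v ∈ lv P j, St.dg (Df j) (lv P j) v * sing v =
        ∑ v ∈ lv P j, (dgD j v - dgT j v) * sing v :=
      sum_congr rfl fun v hv => by rw [hA v hv]
    have e3 : ∑ v ∈ lv P j, St.dg (Df j) (lv P j) v * St.dg (St.Bf j) (lv P j) v =
        ∑ v ∈ lv P j, (dgD j v ^ 2 - dgT j v ^ 2) :=
      sum_congr rfl fun v hv => by
        rw [hA v hv, hB v hv]
        ring
    have e4 : ∑ u ∈ lv P j, ∑ w ∈ (lv P j).erase u, Df j {u, w} * St.Bf j {u, w} =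
        ∑ v ∈ lv P j, ∑ v' ∈ (lv P j).erase v, ((dcv v v' : ℤ) ^ 2 - (ucv v v' : ℤ) ^ 2) :=
      sum_congr rfl fun v hv => sum_congr rfl fun w hw => by
        rw [Df_pair H (mem_lv.1 hv) (ne_of_mem_erase hw).symm,
          T6_Bf H (mem_lv.1 hv) (ne_of_mem_erase hw).symm]
        ring
    rw [e1, e2, e3, e4]
    linarith

/-- the components of the first bad level, if there are no joins -/
lemma T6_blk (h : GoodTo P r j) (hno : ∀ z : P, lev z = j + 1 → ¬ Hul.Jn z) :
    St.Blk (Df j) (lv P 0) (St.wt0 j) where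
  disj := by
    intro t ht t' ht' hne
    rw [disjoint_left]
    intro v hv hv'
    exact (S6_cross h hno ht ht' hne hv hv').1 rfl
  zero := by
    intro t ht t' ht' hne u hu w hw
    obtain ⟨h2, h3, h4⟩ := S6_cross h hno ht ht' hne hu hw
    rw [Df_pair h.H (St.mem_wt0.1 hu).1 h2, h3, h4]
    simp
  one := fun t ht => S6_mp h hno (mem_lv.1 ht)

/-- T6 minus (21), localised on the components -/
theorem T6_sum (h : GoodTo P r j) (hj : 1 ≤ j) (hr : j + 1 ≤ r)
    (hno : ∀ z : P, lev z = j + 1 → ¬ Hul.Jn z)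
    (ht : ∀ t : P, lev t = 0 → St.Tight (Df j) (St.wt0 j t)) :
    ∑ t ∈ lv P 0, St.ct (Df j) (fun e => T6N.thD j e - T6N.thU j e) (St.wt0 j t) = 0 := by
  have h3 : ∀ x : P, lev x + 2 = j → dn j x ≤ 3 := by
    intro x hx
    have h4 := dn_le_three h.H (k := lev x) (h.good (lev x + 1) (by omega)) rfl
    rw [hx] at h4
    exact h4
  have h6 := T6N.T6ord h.H h.hr h3
  have h21 := T6_21 h.H hj hr
  have hV := St.lv_eq (P := P) j
  refine (T6_blk h hno).sum_ct (Bf := St.Bf j) (th := fun e => T6N.thD j e - T6N.thU j e)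
    (sg := sing) (fun t ht' => ht t (mem_lv.1 ht')) ?_ ?_ ?_ ?_
  · intro t ht t' ht' hne u hu w hw
    obtain ⟨h2, h3, h4⟩ := S6_cross h hno ht ht' hne hu hw
    rw [T6_Bf h.H (St.mem_wt0.1 hu).1 h2, h3, h4]
    simp
  · intro t ht t' ht' hne u hu w hw
    obtain ⟨h2, h3, h4⟩ := S6_cross h hno ht ht' hne hu hw
    have e1 : T6N.thD j {u, w} = 0 := by
      by_contra hcon
      have := T6_thD h.H hcon
      omega
    have e2 : T6N.thU j {u, w} = 0 := by
      by_contra hcon
      have := T6_thU h.H hcon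
      omega
    show T6N.thD j {u, w} - T6N.thU j {u, w} = 0
    rw [e1, e2, sub_zero]
  · rw [← hV]
    exact h6
  · rw [← hV]
    exact h21

end Pool.Agent.GaussPoset.Win
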